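import Pool.Agent.Q264.SN.Stm

namespace Pool.Agent.Q32.SN

open Finset Pool.Agent.Q264.SN

theorem t_MONO : S_MONO := by
  classical
  intro V W _ _ G H f hf hadj X hX
  obtain ⟨hpsd, hnn, htr, hz⟩ := hX
  obtain ⟨P, hP⟩ : ∃ P : Matrix V W ℝ, ∀ a u, P a u = if f a = u then 1 else 0 :=
    ⟨Matrix.of fun a u => if f a = u then 1 else 0, fun _ _ => rfl⟩
  have hform : ∀ u v, (P.conjTranspose * X * P) u v =
      ∑ b, ∑ a, (if f a = u then 1 else 0) * X a b * (if f b = v then 1 else 0) := by
    intro u v
    rw [Matrix.mul_apply]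
    refine Finset.sum_congr rfl fun b _ => ?_
    rw [Matrix.mul_apply, Finset.sum_mul]
    refine Finset.sum_congr rfl fun a _ => ?_
    rw [Matrix.conjTranspose_apply, star_trivial, hP, hP]
  have hP1 : ∀ b, ∑ v, (if f b = v then (1 : ℝ) else 0) = 1 := by
    intro b
    simp
  have htr' : ∑ b, X b b = 1 := htr
  refine ⟨P.conjTranspose * X * P, ⟨hpsd.conjTranspose_mul_mul_same P, ?_, ?_, ?_⟩, ?_⟩
  · intro u v
    rw [hform]
    refine Finset.sum_nonneg fun b _ => Finset.sum_nonneg fun a _ => ?_
    refine mul_nonneg (mul_nonneg ?_ (hnn a b)) ?_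
    · split_ifs <;> norm_num
    · split_ifs <;> norm_num
  · have h0 : (P.conjTranspose * X * P).trace = ∑ u, (P.conjTranspose * X * P) u u := rfl
    rw [h0, ← htr']
    simp only [hform]
    rw [Finset.sum_comm]
    refine Finset.sum_congr rfl fun b _ => ?_
    rw [Finset.sum_comm]
    rw [Finset.sum_eq_single b]
    · rw [Finset.sum_eq_single (f b)]
      · simp
      · intro u _ hu
        simp [Ne.symm hu]
      · simp
    · intro a _ hab
      refine Finset.sum_eq_zero fun u _ => ?_
      by_cases h1 : f a = u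
      · have h2 : f b ≠ u := fun h => hab (hf (h1.trans h.symm))
        simp [h2]
      · simp [h1]
    · simp
  · intro u v huv
    rw [hform]
    refine Finset.sum_eq_zero fun b _ => Finset.sum_eq_zero fun a _ => ?_
    by_cases h1 : f a = u
    · by_cases h2 : f b = v
      · have : G.Adj a b := hadj a b (by rw [h1, h2]; exact huv)
        simp [hz a b this]
      · simp [h2]
    · simp [h1]
  · simp only [hform]
    calc ∑ u, ∑ v, ∑ b, ∑ a, (if f a = u then (1 : ℝ) else 0) * X a b * (if f b = v then 1 else 0)
        = ∑ u, ∑ b, ∑ a, (if f a = u then (1 : ℝ) else 0) * X a b := by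
          refine Finset.sum_congr rfl fun u _ => ?_
          rw [Finset.sum_comm]
          refine Finset.sum_congr rfl fun b _ => ?_
          rw [Finset.sum_comm]
          refine Finset.sum_congr rfl fun a _ => ?_
          rw [← Finset.mul_sum, hP1, mul_one]
      _ = ∑ b, ∑ a, X a b := by
          rw [Finset.sum_comm]
          refine Finset.sum_congr rfl fun b _ => ?_
          rw [Finset.sum_comm]
          refine Finset.sum_congr rfl fun a _ => ?_
          rw [← Finset.sum_mul, hP1, one_mul]
      _ = ∑ a, ∑ b, X a b := Finset.sum_comm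

end Pool.Agent.Q32.SN
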